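import Mathlib

/-! The Abel transform and the basic integrals. -/

open Real MeasureTheory Set
open scoped ENNReal

namespace Pool.Agent.MP_f2742c_an

theorem lint_subst {s t : Set ℝ} {f f' : ℝ → ℝ} (hs : MeasurableSet s)
    (hf : ∀ x, HasDerivAt f (f' x) x) (hinj : InjOn f s) (him : f '' s = t) (g : ℝ → ℝ≥0∞) :
    ∫⁻ x in t, g x = ∫⁻ x in s, ENNReal.ofReal |f' x| * g (f x) := by
  rw [← him]
  exact lintegral_image_eq_lintegral_abs_deriv_mul hs (fun x _ => (hf x).hasDerivWithinAt) hinj g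

theorem lint_affine (a b : ℝ) (hb : 0 < b) (g : ℝ → ℝ≥0∞) :
    ∫⁻ x, g x = ENNReal.ofReal b * ∫⁻ v, g (a + b * v) := by
  have := lint_subst (s := univ) (t := univ) (f := fun v => a + b * v) (f' := fun _ => b)
    MeasurableSet.univ (fun x => by simpa using ((hasDerivAt_id x).const_mul b).const_add a)
    (fun x _ y _ h => by
      have h' : a + b * x = a + b * y := h
      exact mul_left_cancel₀ hb.ne' (add_left_cancel h'))
    (by
      apply eq_univ_of_forall
      intro y
      exact ⟨(y - a) / b, mem_univ _, by field_simp; ring⟩) g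
  rw [Measure.restrict_univ, abs_of_pos hb] at this
  rw [this, lintegral_const_mul' _ _ ENNReal.ofReal_ne_top]

theorem lint_inv_sqrt (A : ℝ) :
    ∫⁻ v, ENNReal.ofReal (√(A - v ^ 2))⁻¹ = if 0 < A then ENNReal.ofReal π else 0 := by
  split_ifs with hA
  · have hs : 0 < √A := sqrt_pos.mpr hA
    have h1 : ∫⁻ v, ENNReal.ofReal (√(A - v ^ 2))⁻¹ =
        ∫⁻ v in Ioo (-√A) (√A), ENNReal.ofReal (√(A - v ^ 2))⁻¹ := by
      symm
      apply setLIntegral_eq_of_support_subset
      intro v hv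
      by_contra h
      apply hv
      have : A - v ^ 2 ≤ 0 := by
        rw [mem_Ioo, not_and_or, not_lt, not_lt] at h
        have h2 := sq_sqrt hA.le
        rcases h with h | h <;> nlinarith
      simp [sqrt_eq_zero_of_nonpos this]
    rw [h1, lint_subst (s := Ioo (-(π / 2)) (π / 2)) (f := fun θ => √A * sin θ)
      (f' := fun θ => √A * cos θ) measurableSet_Ioo (fun x => (hasDerivAt_sin x).const_mul _)]
    · rw [setLIntegral_congr_fun measurableSet_Ioo (g := fun _ => 1)]
      · simp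
      · intro θ hθ
        have hc : 0 < cos θ := cos_pos_of_mem_Ioo hθ
        have : A - (√A * sin θ) ^ 2 = (√A * cos θ) ^ 2 := by
          rw [mul_pow, mul_pow, sq_sqrt hA.le, cos_sq']
          ring
        have hp : 0 < √A * cos θ := mul_pos hs hc
        simp only
        rw [this, sqrt_sq hp.le, abs_of_pos hp, ← ENNReal.ofReal_mul hp.le, mul_inv_cancel₀ hp.ne']
        simp
    · intro x hx y hy h
      exact injOn_sin (Ioo_subset_Icc_self hx) (Ioo_subset_Icc_self hy) (mul_left_cancel₀ hs.ne' h)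
    · ext v
      constructor
      · rintro ⟨θ, hθ, rfl⟩
        have h1 := strictMonoOn_sin ⟨le_rfl, by linarith [pi_pos]⟩ (Ioo_subset_Icc_self hθ) hθ.1
        have h2 := strictMonoOn_sin (Ioo_subset_Icc_self hθ) ⟨by linarith [pi_pos], le_rfl⟩ hθ.2
        rw [sin_neg, sin_pi_div_two] at h1
        rw [sin_pi_div_two] at h2
        constructor <;> simp only <;> nlinarith
      · intro hv
        have h1 : -1 < v / √A := by rw [lt_div_iff₀ hs]; linarith [hv.1]
        have h2 : v / √A < 1 := by rw [div_lt_iff₀ hs]; linarith [hv.2]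
        refine ⟨arcsin (v / √A), ⟨neg_pi_div_two_lt_arcsin.mpr h1, arcsin_lt_pi_div_two.mpr h2⟩, ?_⟩
        simp only
        rw [sin_arcsin h1.le h2.le]
        field_simp
  · have : ∀ v : ℝ, ENNReal.ofReal (√(A - v ^ 2))⁻¹ = 0 := by
      intro v
      have : A - v ^ 2 ≤ 0 := by nlinarith [sq_nonneg v]
      simp [sqrt_eq_zero_of_nonpos this]
    simp [this]

theorem lint_polar (F : ℝ → ℝ≥0∞) (hF : Measurable F) :
    ∫⁻ s, ∫⁻ v, F (s ^ 2 + v ^ 2) = ENNReal.ofReal π * ∫⁻ ρ in Ioi 0, F ρ := by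
  have h1 : ∫⁻ s, ∫⁻ v, F (s ^ 2 + v ^ 2) = ∫⁻ p : ℝ × ℝ, F (p.1 ^ 2 + p.2 ^ 2) := by
    rw [Measure.volume_eq_prod, lintegral_prod _ (by fun_prop)]
  rw [h1, ← lintegral_comp_polarCoord_symm, polarCoord_target, Measure.volume_eq_prod,
    ← Measure.prod_restrict]
  have h2 : ∀ p : ℝ × ℝ, ENNReal.ofReal p.1 • F ((polarCoord.symm p).1 ^ 2 +
      (polarCoord.symm p).2 ^ 2) = (ENNReal.ofReal p.1 * F (p.1 ^ 2)) * 1 := by
    intro p
    simp only [polarCoord_symm_apply, smul_eq_mul, mul_one]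
    congr 2
    rw [mul_pow, mul_pow, ← mul_add, cos_sq_add_sin_sq, mul_one]
  simp only [h2]
  rw [lintegral_prod_mul (f := fun r => ENNReal.ofReal r * F (r ^ 2)) (g := fun _ => 1)
    (by fun_prop) (by fun_prop)]
  have h3 : ∫⁻ ρ in Ioi 0, F ρ = 2 * ∫⁻ r in Ioi 0, ENNReal.ofReal r * F (r ^ 2) := by
    rw [lint_subst (s := Ioi 0) (t := Ioi 0) (f := fun r => r ^ 2) (f' := fun r => 2 * r)
      measurableSet_Ioi (fun x => by simpa using hasDerivAt_pow 2 x)]
    · rw [← lintegral_const_mul' _ _ (by norm_num)]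
      apply setLIntegral_congr_fun measurableSet_Ioi
      intro r hr
      have hr' : 0 < r := hr
      simp only
      rw [abs_of_pos (by linarith), ENNReal.ofReal_mul (by norm_num), mul_assoc]
      simp
    · intro x hx y hy h
      exact (pow_left_inj₀ (le_of_lt hx) (le_of_lt hy) two_ne_zero).mp h
    · ext y
      constructor
      · rintro ⟨x, hx, rfl⟩
        exact pow_pos (mem_Ioi.mp hx) 2
      · intro hy
        exact ⟨√y, sqrt_pos.mpr hy, sq_sqrt (le_of_lt hy)⟩
  rw [h3]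
  simp only [lintegral_const, MeasurableSet.univ, Measure.restrict_apply, univ_inter,
    volume_Ioo, one_mul, sub_neg_eq_add]
  rw [ENNReal.ofReal_add pi_pos.le pi_pos.le, ← two_mul]
  ring

/-- The Abel transform. -/
noncomputable def Ab (κ : ℝ → ℝ≥0∞) (c : ℝ) : ℝ≥0∞ := ∫⁻ v, κ (c + v ^ 2)

theorem measurable_Ab {κ : ℝ → ℝ≥0∞} (hκ : Measurable κ) : Measurable (Ab κ) :=
  Measurable.lintegral_prod_right (f := fun c v => κ (c + v ^ 2)) (by fun_prop)

theorem Ab_Ab {κ : ℝ → ℝ≥0∞} (hκ : Measurable κ) (c : ℝ) :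
    ∫⁻ s, Ab κ (c + s ^ 2) = ENNReal.ofReal π * ∫⁻ x in Ioi c, κ x := by
  have h := lint_polar (fun ρ => κ (c + ρ)) (by fun_prop)
  simp only [Ab, add_assoc]
  rw [h]
  congr 1
  rw [lint_subst (s := Ioi 0) (t := Ioi c) (f := fun r => c + r) (f' := fun _ => 1)
    measurableSet_Ioi (fun x => (hasDerivAt_id x).const_add c) (fun x _ y _ h => add_left_cancel h)
    (by simp)]
  simp

theorem Ab_inj {κ κ' : ℝ → ℝ≥0∞} (hκ : Measurable κ) (hκ' : Measurable κ')
    (h : ∀ c, 1 ≤ c → Ab κ c = Ab κ' c) (hfin : ∫⁻ x in Ioi 1, κ x ≠ ∞) :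
    κ =ᵐ[volume.restrict (Ioi 1)] κ' := by
  have h1 : ∀ c, 1 ≤ c → ∫⁻ x in Ioi c, κ x = ∫⁻ x in Ioi c, κ' x := by
    intro c hc
    have a := Ab_Ab hκ c
    have b := Ab_Ab hκ' c
    have e : ∫⁻ s, Ab κ (c + s ^ 2) = ∫⁻ s, Ab κ' (c + s ^ 2) :=
      lintegral_congr fun s => h _ (by nlinarith [sq_nonneg s])
    rw [e, b] at a
    exact ((ENNReal.mul_right_inj (by simp [pi_pos]) ENNReal.ofReal_ne_top).mp a).symm
  rw [← withDensity_eq_iff hκ.aemeasurable hκ'.aemeasurable hfin]
  have : IsFiniteMeasure ((volume.restrict (Ioi 1)).withDensity κ) :=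
    isFiniteMeasure_withDensity hfin
  apply Measure.ext_of_Ici
  intro a
  rw [withDensity_apply _ measurableSet_Ici, withDensity_apply _ measurableSet_Ici,
    Measure.restrict_restrict measurableSet_Ici]
  rcases le_or_gt a 1 with ha | ha
  · rw [inter_eq_right.mpr (show Ioi 1 ⊆ Ici a from fun x hx => le_trans ha (le_of_lt hx))]
    exact h1 1 le_rfl
  · rw [inter_eq_left.mpr (show Ici a ⊆ Ioi 1 from fun x hx => lt_of_lt_of_le ha hx),
      ← setLIntegral_congr Ioi_ae_eq_Ici, ← setLIntegral_congr Ioi_ae_eq_Ici]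
    exact h1 a ha.le

/-- The wave kernel profile. -/
noncomputable def wk (t x : ℝ) : ℝ≥0∞ := ENNReal.ofReal (√(cosh t - x))⁻¹

@[fun_prop]
theorem measurable_wk {α : Type*} [MeasurableSpace α] {f g : α → ℝ} (hf : Measurable f)
    (hg : Measurable g) : Measurable (fun a => wk (f a) (g a)) := by
  unfold wk
  fun_prop

theorem wk_ne_top (t x : ℝ) : wk t x ≠ ∞ := ENNReal.ofReal_ne_top

theorem Ab_wk (t c : ℝ) : Ab (wk t) c = if c < cosh t then ENNReal.ofReal π else 0 := by
  have := lint_inv_sqrt (cosh t - c)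
  simp only [sub_pos] at this
  rw [← this, Ab]
  simp only [wk, sub_sub]

theorem wk_eq_zero {t x : ℝ} (h : cosh t ≤ x) : wk t x = 0 := by
  simp [wk, sqrt_eq_zero_of_nonpos (sub_nonpos.mpr h)]

theorem lint_wk (t c : ℝ) : ∫⁻ x in Ioi c, wk t x = ENNReal.ofReal (2 * √(cosh t - c)) := by
  rcases le_or_gt (cosh t) c with h | h
  · rw [sqrt_eq_zero_of_nonpos (sub_nonpos.mpr h), setLIntegral_congr_fun measurableSet_Ioi
      (g := fun _ => 0) (fun x hx => wk_eq_zero (h.trans (le_of_lt hx)))]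
    simp
  have hs : 0 < √(cosh t - c) := sqrt_pos.mpr (sub_pos.mpr h)
  have h1 : ∫⁻ x in Ioi c, wk t x = ∫⁻ x in Ioo c (cosh t), wk t x := by
    rw [← Iio_inter_Ioi, ← Measure.restrict_restrict measurableSet_Iio]
    symm
    apply setLIntegral_eq_of_support_subset
    intro x hx
    by_contra h
    exact hx (wk_eq_zero (not_lt.mp h))
  rw [h1, lint_subst (s := Ioo 0 (√(cosh t - c))) (f := fun s => cosh t - s ^ 2)
    (f' := fun s => -(2 * s)) measurableSet_Ioo
    (fun x => by simpa using (hasDerivAt_pow 2 x).const_sub (cosh t))]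
  · rw [setLIntegral_congr_fun measurableSet_Ioo (g := fun _ => 2)]
    · simp [ENNReal.ofReal_mul]
    · intro s hs
      have hs0 := hs.1
      simp only [wk, sub_sub_cancel]
      rw [sqrt_sq hs0.le, abs_neg, abs_of_pos (by linarith), ← ENNReal.ofReal_mul (by linarith),
        mul_assoc, mul_inv_cancel₀ hs0.ne']
      simp
  · intro x hx y hy h
    have : x ^ 2 = y ^ 2 := by simpa using h
    exact (pow_left_inj₀ hx.1.le hy.1.le two_ne_zero).mp this
  · ext y
    constructor
    · rintro ⟨s, hs', rfl⟩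
      have h2 := sq_sqrt (sub_pos.mpr h).le
      have h3 := hs'.1
      have h4 := hs'.2
      constructor <;> simp only <;> nlinarith
    · intro hy
      refine ⟨√(cosh t - y), ⟨sqrt_pos.mpr (sub_pos.mpr hy.2), ?_⟩, ?_⟩
      · exact sqrt_lt_sqrt (sub_pos.mpr hy.2).le (by linarith [hy.1])
      · simp only
        rw [sq_sqrt (sub_pos.mpr hy.2).le]
        ring

theorem lint_mix (r x : ℝ) (hr : 0 ≤ r) (hx : 1 ≤ x) :
    ∫⁻ u in Ioo 0 r, (ENNReal.ofReal (sinh u) * wk r (cosh u)) * wk u x =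
      if x < cosh r then ENNReal.ofReal π else 0 := by
  have h1 := lint_subst (s := Ioo 0 r) (t := Ioo 1 (cosh r)) (f := cosh) (f' := sinh)
    measurableSet_Ioo hasDerivAt_cosh
    (fun x hx y hy h => cosh_injOn (le_of_lt hx.1) (le_of_lt hy.1) h) (by
      ext y
      constructor
      · rintro ⟨u, hu, rfl⟩
        refine ⟨one_lt_cosh.mpr hu.1.ne', cosh_lt_cosh.mpr ?_⟩
        rw [abs_of_pos hu.1, abs_of_nonneg hr]
        exact hu.2
      · intro hy
        refine ⟨arcosh y, ⟨arcosh_pos hy.1, ?_⟩, cosh_arcosh hy.1.le⟩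
        rw [← arcosh_cosh hr]
        exact (arcosh_lt_arcosh (by linarith [hy.1]) (cosh_pos r)).mpr hy.2)
    (fun p => wk r p * ENNReal.ofReal (√(p - x))⁻¹)
  have h2 : ∫⁻ u in Ioo 0 r, (ENNReal.ofReal (sinh u) * wk r (cosh u)) * wk u x =
      ∫⁻ p in Ioo 1 (cosh r), wk r p * ENNReal.ofReal (√(p - x))⁻¹ := by
    rw [h1]
    apply setLIntegral_congr_fun measurableSet_Ioo
    intro u hu
    simp only
    rw [abs_of_pos (sinh_pos_iff.mpr hu.1), mul_assoc]
    rfl
  rw [h2]
  split_ifs with h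
  · rw [setLIntegral_eq_of_support_subset, lint_affine ((cosh r + x) / 2) 1 one_pos]
    · have := lint_inv_sqrt (((cosh r - x) / 2) ^ 2)
      rw [if_pos (by have := sub_pos.mpr h; positivity)] at this
      rw [← this, ENNReal.ofReal_one, one_mul]
      apply lintegral_congr
      intro v
      rw [wk, ← ENNReal.ofReal_mul (by positivity), ← mul_inv]
      congr 2
      rcases le_or_gt 0 (cosh r - ((cosh r + x) / 2 + 1 * v)) with h3 | h3
      · rw [← sqrt_mul h3]
        congr 1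
        ring
      · rw [sqrt_eq_zero_of_nonpos h3.le, zero_mul, sqrt_eq_zero_of_nonpos]
        nlinarith
    · intro p hp
      constructor
      · by_contra h3
        apply hp
        simp [sqrt_eq_zero_of_nonpos (by linarith : p - x ≤ 0)]
      · by_contra h3
        apply hp
        simp [wk_eq_zero (not_lt.mp h3)]
  · rw [setLIntegral_congr_fun measurableSet_Ioo (g := fun _ => 0)]
    · simp
    · intro p hp
      simp [sqrt_eq_zero_of_nonpos (by linarith [hp.2] : p - x ≤ 0)]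

end Pool.Agent.MP_f2742c_an
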