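import Mathlib

/-! Definitions used in the statement. -/

open MeasureTheory UpperHalfPlane
open scoped ENNReal MatrixGroups

namespace Pool.Agent.MP_f2742c_an

/-- The ball `F_r = {g ∈ PSL₂(ℝ) | d(p₀, g p₀) ≤ r}` for the hyperbolic metric of the upper
half-plane, on which `PSL₂(ℝ) ⊆ PGL₂(ℝ)` acts by Möbius transformations. -/
def hypBall (p₀ : ℍ) (r : ℝ) : Set PSL(2, ℝ) :=
  {g | dist p₀ (Matrix.ProjectiveSpecialLinearGroup.toPGL g • p₀) ≤ r}

/-- The Koopman representation on `L²₀(X, μ)` has no almost invariant vectors. -/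
structure HasSpectralGap (X : Type) [MeasurableSpace X] [MulAction PSL(2, ℝ) X] (μ : Measure X) :
    Prop where
  out : ∃ Q : Set PSL(2, ℝ), IsCompact Q ∧ ∃ ε : ℝ, 0 < ε ∧
    ∀ f : X → ℂ, MemLp f 2 μ → ∫ x, f x ∂μ = 0 →
      ENNReal.ofReal ε * eLpNorm f 2 μ ≤ ⨆ g ∈ Q, eLpNorm (fun x => f (g⁻¹ • x) - f x) 2 μ

/-- The pointwise ergodic theorem for ball averages holds in `L¹`: for every `f ∈ L¹` and almost
every `x`, all ball averages are defined and converge to the mean of `f`. -/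
structure PointwiseL1 [MeasurableSpace PSL(2, ℝ)] (lam : Measure PSL(2, ℝ)) (p₀ : ℍ)
    (X : Type) [MeasurableSpace X] [MulAction PSL(2, ℝ) X] (μ : Measure X) : Prop where
  out : ∀ f : X → ℂ, Integrable f μ → ∀ᵐ x ∂μ,
    (∀ r, IntegrableOn (fun g : PSL(2, ℝ) => f (g • x)) (hypBall p₀ r) lam) ∧
      Filter.Tendsto (fun r : ℝ => ⨍ g in hypBall p₀ r, f (g • x) ∂lam) Filter.atTop
        (nhds (∫ y, f y ∂μ))

end Pool.Agent.MP_f2742c_an
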