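import Pool.Agent.MP_f2742c_an.Hyp

/-! Haar measure on `SL(2, ℝ)` and radial kernels. -/

open Real MeasureTheory Set UpperHalfPlane
open scoped ENNReal NNReal MatrixGroups

namespace Pool.Agent.MP_f2742c_an.Pf

abbrev G := SL(2, ℝ)

scoped instance polishG : PolishSpace G :=
  haveI : PolishSpace (Matrix (Fin 2) (Fin 2) ℝ) :=
    inferInstanceAs (PolishSpace (Fin 2 → Fin 2 → ℝ))
  Matrix.SpecialLinearGroup.isClosedEmbedding_val.polishSpace

scoped instance lcG : LocallyCompactSpace G :=
  haveI : LocallyCompactSpace (Matrix (Fin 2) (Fin 2) ℝ) :=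
    inferInstanceAs (LocallyCompactSpace (Fin 2 → Fin 2 → ℝ))
  Matrix.SpecialLinearGroup.isClosedEmbedding_val.locallyCompactSpace

scoped instance measG : MeasurableSpace G := borel _

scoped instance borelG : BorelSpace G := ⟨rfl⟩

/-- displacement of the base point -/
noncomputable def len (g : G) : ℝ := dist I (g • I)

theorem len_nonneg (g : G) : 0 ≤ len g := dist_nonneg

theorem len_one : len 1 = 0 := by simp [len]

theorem len_inv_mul (g h : G) : len (g⁻¹ * h) = dist (g • I) (h • I) := by
  rw [len, ← dist_smul g, mul_smul, smul_inv_smul]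

theorem len_inv (g : G) : len g⁻¹ = len g := by
  have := len_inv_mul g 1
  rw [mul_one, one_smul] at this
  rw [this, dist_comm, len]

theorem len_mul_le (g h : G) : len (g * h) ≤ len g + len h := by
  have := dist_triangle I (g • I) ((g * h) • I)
  rw [mul_smul, dist_smul, ← mul_smul] at this
  exact this

@[fun_prop]
theorem continuous_len : Continuous len := by
  unfold len
  fun_prop

@[fun_prop]
theorem measurable_len : Measurable len := continuous_len.measurable

theorem isCompact_len (r : ℝ) : IsCompact {g : G | len g ≤ r} := by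
  have := isProperMap_smul_I.isCompact_preimage (isCompact_closedBall I r)
  convert this using 1
  ext g
  simp [len, dist_comm]

theorem measurableSet_len (r : ℝ) : MeasurableSet {g : G | len g ≤ r} :=
  measurableSet_le measurable_len measurable_const

theorem exists_midpoint (g : G) : ∃ m : G, len m = len g / 2 ∧ len (m⁻¹ * g) = len g / 2 := by
  obtain ⟨k, h1, h2⟩ := exists_rot (g • I)
  have h0 := len_nonneg g
  refine ⟨k⁻¹ * (pt 0 (len g / 2)).toSL2R, ?_, ?_⟩
  · rw [len_inv_mul, h1, toSL2R_smul_I, dist_of_re_eq (by simp)]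
    simp [Real.dist_eq, abs_of_nonneg (by linarith : 0 ≤ len g / 2)]
  · rw [len_inv_mul, ← dist_smul k, mul_smul, smul_inv_smul, toSL2R_smul_I, h2,
      dist_of_re_eq (by simp)]
    simp only [pt_im, log_exp, Real.dist_eq]
    change |len g / 2 - len g| = _
    rw [abs_of_nonpos (by linarith)]
    ring

/-- The stabiliser of `i`. -/
noncomputable abbrev KK : Subgroup G := MulAction.stabilizer G I

instance : CompactSpace KK :=
  isCompact_iff_compactSpace.mp (isProperMap_smul_I.isCompact_preimage isCompact_singleton)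

noncomputable def mK : Measure KK := Measure.haarMeasure ⊤

instance : IsProbabilityMeasure mK := ⟨Measure.haarMeasure_self⟩

instance : mK.IsMulLeftInvariant := by unfold mK; infer_instance

theorem continuous_Phi : Continuous (fun p : ℍ × KK => p.1.toSL2R * (p.2 : G)) :=
  (continuous_toSL2R.comp continuous_fst).mul (continuous_subtype_val.comp continuous_snd)

/-- The Haar measure projecting to the hyperbolic area. -/
noncomputable def lam : Measure G :=
  Measure.map (fun p : ℍ × KK => p.1.toSL2R * (p.2 : G)) (volume.prod mK)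

theorem lint_lam (F : G → ℝ≥0∞) (hF : Measurable F) :
    ∫⁻ g, F g ∂lam = ∫⁻ z : ℍ, ∫⁻ k : KK, F (z.toSL2R * (k : G)) ∂mK := by
  rw [lam, lintegral_map hF continuous_Phi.measurable,
    lintegral_prod (fun p : ℍ × KK => F (p.1.toSL2R * (p.2 : G)))
      (hF.comp continuous_Phi.measurable).aemeasurable]

theorem lint_G (F : ℍ → ℝ≥0∞) (hF : Measurable F) : ∫⁻ g, F (g • I) ∂lam = ∫⁻ z, F z := by
  rw [lint_lam (fun g => F (g • I))
    (hF.comp (by fun_prop : Continuous fun g : G => g • I).measurable)]
  apply lintegral_congr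
  intro z
  have : ∀ k : KK, F ((z.toSL2R * (k : G)) • I) = F z := by
    intro k
    rw [mul_smul, k.2, toSL2R_smul_I]
  simp [this]

instance : lam.IsMulLeftInvariant := by
  rw [← forall_measure_preimage_mul_iff]
  intro g s hs
  have hm : Measurable (s.indicator (1 : G → ℝ≥0∞)) := measurable_one.indicator hs
  rw [← lintegral_indicator_one hs, ← lintegral_indicator_one (measurable_const_mul g hs),
    lint_lam _ hm, lint_lam _ (measurable_one.indicator (measurable_const_mul g hs)),
    ← lint_smul g (fun z => ∫⁻ k : KK, s.indicator (1 : G → ℝ≥0∞) (z.toSL2R * (k : G)) ∂mK)]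
  apply lintegral_congr
  intro z
  have hk : (g • z).toSL2R⁻¹ * (g * z.toSL2R) ∈ KK := by
    rw [MulAction.mem_stabilizer_iff, mul_smul, mul_smul, toSL2R_smul_I, inv_smul_eq_iff,
      toSL2R_smul_I]
  rw [← lintegral_mul_left_eq_self (fun k : KK => s.indicator (1 : G → ℝ≥0∞)
    ((g • z).toSL2R * (k : G))) ⟨_, hk⟩]
  apply lintegral_congr
  intro k
  simp only [Subgroup.coe_mul, ← mul_assoc, mul_inv_cancel, one_mul]
  rw [mul_assoc]
  rfl

theorem lint_len (κ : ℝ → ℝ≥0∞) (hκ : Measurable κ) :
    ∫⁻ g, κ (cosh (len g)) ∂lam = ENNReal.ofReal (2 * π) * ∫⁻ x in Ioi 1, κ x := by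
  rw [← lint_radial κ hκ, ← lint_G _ (by fun_prop)]
  rfl

theorem lam_ball {r : ℝ} (hr : 0 ≤ r) :
    lam {g | len g ≤ r} = ENNReal.ofReal (2 * π * (cosh r - 1)) := by
  have h := lint_len ((Iic (cosh r)).indicator 1) (measurable_one.indicator measurableSet_Iic)
  rw [lintegral_indicator_one measurableSet_Iic, Measure.restrict_apply measurableSet_Iic,
    Iic_inter_Ioi, volume_Ioc, ← ENNReal.ofReal_mul (by positivity)] at h
  rw [← h, ← lintegral_indicator_one (measurableSet_len r)]
  apply lintegral_congr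
  intro g
  have : cosh (len g) ∈ Iic (cosh r) ↔ g ∈ {g | len g ≤ r} := by
    rw [mem_Iic, cosh_le_cosh, abs_of_nonneg hr, abs_of_nonneg (len_nonneg g)]
    rfl
  by_cases hg : g ∈ {g | len g ≤ r}
  · rw [indicator_of_mem hg, indicator_of_mem (this.mpr hg)]
    rfl
  · rw [indicator_of_notMem hg, indicator_of_notMem (fun h => hg (this.mp h))]

instance : IsFiniteMeasureOnCompacts lam := by
  constructor
  intro C hC
  obtain ⟨r, hr⟩ := (hC.image continuous_len).bddAbove
  have : C ⊆ {g | len g ≤ max r 0} := fun g hg => le_max_of_le_left (hr ⟨g, hg, rfl⟩)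
  refine (measure_mono this).trans_lt ?_
  rw [lam_ball (le_max_right _ _)]
  exact ENNReal.ofReal_lt_top

theorem lam_ne_zero : lam ≠ 0 := by
  intro h
  have := lam_ball zero_le_one
  rw [h, Measure.coe_zero, Pi.zero_apply, eq_comm, ENNReal.ofReal_eq_zero] at this
  have h1 : 1 < cosh 1 := one_lt_cosh.mpr one_ne_zero
  nlinarith [pi_pos]

instance : lam.IsHaarMeasure := by
  have h := Measure.isMulLeftInvariant_eq_smul lam (Measure.haar : Measure G)
  have hc : lam.haarScalarFactor Measure.haar ≠ 0 := by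
    intro h0
    rw [h0, zero_smul] at h
    exact lam_ne_zero h
  rw [h]
  exact Measure.IsHaarMeasure.nnreal_smul _ hc

theorem modular_eq_one (g : G) : Measure.modularCharacterFun g = 1 := by
  have h : commutator G ≤ (Measure.modularCharacter (G := G)).toHomUnits.ker :=
    Abelianization.commutator_subset_ker _
  have h2 : commutator G = ⊤ :=
    Matrix.SL2.commutator_eq_top (a := (2 : ℝ)) (by norm_num) (by norm_num)
  have h3 := h (h2 ▸ Subgroup.mem_top g)
  rw [MonoidHom.mem_ker] at h3
  exact congrArg Units.val h3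

instance : lam.IsMulRightInvariant :=
  ⟨fun g => by rw [Measure.map_right_mul_eq_modularCharacterFun_smul, modular_eq_one, one_smul]⟩

instance : lam.IsInvInvariant := by
  constructor
  have hc := Measure.isMulLeftInvariant_eq_smul lam.inv lam
  have h1 : lam.inv {g | len g ≤ 1} = lam {g | len g ≤ 1} := by
    rw [Measure.inv_apply]
    congr 1
    ext g
    simp [len_inv]
  have h2 : lam {g | len g ≤ 1} ≠ 0 := by
    rw [lam_ball zero_le_one, ne_eq, ENNReal.ofReal_eq_zero, not_le]
    have h1 : 1 < cosh 1 := one_lt_cosh.mpr one_ne_zero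
    nlinarith [pi_pos]
  have h3 : lam {g | len g ≤ 1} ≠ ∞ := (isCompact_len 1).measure_lt_top.ne
  rw [hc, Measure.smul_apply, ENNReal.smul_def, smul_eq_mul] at h1
  have h4 : (lam.inv.haarScalarFactor lam : ℝ≥0∞) = 1 := by
    rw [← ENNReal.mul_left_inj h2 h3, h1, one_mul]
  rw [hc, ENNReal.coe_eq_one.mp h4, one_smul]

/-- The wave kernel on the group. -/
noncomputable def wG (t : ℝ) (g : G) : ℝ≥0∞ := wk t (cosh (len g))

@[fun_prop]
theorem measurable_wG {α : Type*} [MeasurableSpace α] {f : α → ℝ} {g : α → G} (hf : Measurable f)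
    (hg : Measurable g) : Measurable (fun a => wG (f a) (g a)) := by
  unfold wG
  fun_prop

theorem wG_inv (t : ℝ) (g : G) : wG t g⁻¹ = wG t g := by rw [wG, len_inv, wG]

theorem wG_ne_top (t : ℝ) (g : G) : wG t g ≠ ∞ := wk_ne_top _ _

theorem sqrt_cosh_sub_one {t : ℝ} (ht : 0 ≤ t) : √(cosh t - 1) = √2 * sinh (t / 2) := by
  have h : 0 ≤ sinh (t / 2) := sinh_nonneg_iff.mpr (by linarith)
  rw [← sqrt_sq h, ← sqrt_mul (by norm_num)]
  congr 1
  conv_lhs => rw [show t = 2 * (t / 2) by ring, cosh_two_mul, cosh_sq']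
  ring

theorem lint_wG' (t : ℝ) : ∫⁻ g, wG t g ∂lam = ENNReal.ofReal (2 * π * (2 * √(cosh t - 1))) := by
  unfold wG
  rw [lint_len (wk t) (by fun_prop), lint_wk, ← ENNReal.ofReal_mul (by positivity)]

theorem lint_wG {t : ℝ} (ht : 0 ≤ t) :
    ∫⁻ g, wG t g ∂lam = ENNReal.ofReal (√2 * π * (4 * sinh (t / 2))) := by
  rw [lint_wG', sqrt_cosh_sub_one ht]
  congr 1
  ring

theorem conv_wG {a t : ℝ} (ha : 0 ≤ a) (hat : a ≤ t) :
    mlconvolution (wG a) (wG t) lam =ᵐ[lam] fun g => mx a t (cosh (len g)) := by
  have h := cv_ae_eq ha hat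
  set N := {w : ℍ | ¬ cv a t w = mx a t (cosh (dist I w))} with hN
  have hNm : MeasurableSet N :=
    (measurableSet_eq_fun (measurable_cv a t) ((measurable_mx a t).comp (by fun_prop))).compl
  have h1 := lint_G (N.indicator 1) (measurable_one.indicator hNm)
  rw [lintegral_indicator_one hNm, show volume N = 0 from h,
    lintegral_eq_zero_iff (f := fun g : G => N.indicator (1 : ℍ → ℝ≥0∞) (g • I))
      ((measurable_one.indicator hNm).comp
        (by fun_prop : Continuous fun g : G => g • I).measurable)] at h1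
  filter_upwards [h1] with g hg
  have h2 : cv a t (g • I) = mx a t (cosh (len g)) := by
    by_contra hcon
    have : g • I ∈ N := hcon
    simp [indicator_of_mem this] at hg
  rw [← h2, cv, ← lint_G _ (by fun_prop), mlconvolution_def]
  apply lintegral_congr
  intro x
  rw [wG, wG, len_inv_mul]
  rfl

end Pool.Agent.MP_f2742c_an.Pf
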