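import Pool.Agent.MP_f2742c_an.Abel

/-! Integration of radial kernels on the upper half plane. -/

open Real MeasureTheory Set UpperHalfPlane
open scoped ENNReal MatrixGroups

namespace Pool.Agent.MP_f2742c_an

/-- The point `x + i e^τ`. -/
noncomputable def pt (x τ : ℝ) : ℍ := ⟨⟨x, exp τ⟩, exp_pos τ⟩

@[simp] theorem pt_re (x τ : ℝ) : (pt x τ).re = x := rfl

@[simp] theorem pt_im (x τ : ℝ) : (pt x τ).im = exp τ := rfl

theorem pt_eq (z : ℍ) : pt z.re (log z.im) = z :=
  ext_re_im rfl (by simp [exp_log z.im_pos])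

theorem pt_zero : pt 0 0 = I := ext_re_im (by simp) (by simp)

theorem continuous_pt : Continuous (fun p : ℝ × ℝ => pt p.1 p.2) := by
  rw [isEmbedding_coe.continuous_iff]
  have : (UpperHalfPlane.coe ∘ fun p : ℝ × ℝ => pt p.1 p.2) =
      fun p : ℝ × ℝ => (p.1 : ℂ) + (exp p.2 : ℝ) * Complex.I := by
    funext p
    apply Complex.ext <;> simp [pt, -Complex.ofReal_exp]
  rw [this]
  fun_prop

@[fun_prop]
theorem measurable_pt {α : Type*} [MeasurableSpace α] {f g : α → ℝ} (hf : Measurable f)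
    (hg : Measurable g) : Measurable (fun a => pt (f a) (g a)) :=
  continuous_pt.measurable.comp (hf.prodMk hg)

theorem lint_H (F : ℍ → ℝ≥0∞) (hF : Measurable F) :
    ∫⁻ z, F z = ∫⁻ τ, ENNReal.ofReal (exp (-τ)) * ∫⁻ x, F (pt x τ) := by
  set f : ℂ → ℝ≥0∞ := fun w => ENNReal.ofReal ((w.im ^ 2)⁻¹) * F (pt w.re (log w.im)) with hf
  have hmp : MeasurePreserving UpperHalfPlane.coe (volume.comap UpperHalfPlane.coe)
      (volume.restrict (.range UpperHalfPlane.coe)) :=
    ⟨measurable_coe, by rw [measurableEmbedding_coe.map_comap]⟩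
  have h1 : ∫⁻ z, F z = ∫⁻ w in range UpperHalfPlane.coe, f w := by
    rw [← hmp.lintegral_comp_emb measurableEmbedding_coe, volume_def,
      lintegral_withDensity_eq_lintegral_mul _ _ hF]
    · apply lintegral_congr
      intro z
      simp only [hf, Pi.mul_apply, coe_im, coe_re, pt_eq]
      congr 1
      rw [← ENNReal.ofReal_coe_nnreal]
      congr 1
      simp
    · apply Measurable.coe_nnreal_ennreal
      apply Measurable.pow_const
      apply Measurable.const_div
      exact (continuous_im.subtype_mk _).measurable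
  have h2 : range UpperHalfPlane.coe =
      Complex.measurableEquivRealProd ⁻¹' ((univ : Set ℝ) ×ˢ (Ioi (0 : ℝ))) := by
    ext w
    simp only [mem_range, mem_preimage, mem_prod, mem_univ, mem_Ioi, true_and,
      Complex.measurableEquivRealProd_apply]
    exact ⟨fun ⟨z, hz⟩ => hz ▸ z.im_pos, fun h => ⟨⟨w, h⟩, rfl⟩⟩
  have h3 := Complex.volume_preserving_equiv_real_prod.setLIntegral_comp_preimage_emb
    Complex.measurableEquivRealProd.measurableEmbedding
    (fun p : ℝ × ℝ => ENNReal.ofReal ((p.2 ^ 2)⁻¹) * F (pt p.1 (log p.2)))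
    ((univ : Set ℝ) ×ˢ (Ioi (0 : ℝ)))
  rw [h1, h2]
  refine h3.trans ?_
  rw [Measure.volume_eq_prod, ← Measure.prod_restrict, Measure.restrict_univ,
    lintegral_prod_symm _ (by fun_prop)]
  rw [lint_subst (s := univ) (t := Ioi 0) (f := exp) (f' := exp) MeasurableSet.univ
    hasDerivAt_exp exp_injective.injOn (by simp), Measure.restrict_univ]
  apply lintegral_congr
  intro τ
  dsimp only
  rw [lintegral_const_mul' _ _ ENNReal.ofReal_ne_top, ← mul_assoc, log_exp,
    ← ENNReal.ofReal_mul (abs_nonneg _), abs_of_pos (exp_pos τ)]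
  congr 2
  rw [exp_neg]
  field_simp

theorem cosh_dist_pt (ξ σ x τ : ℝ) :
    cosh (dist (pt ξ σ) (pt x τ)) = cosh (τ - σ) + (x - ξ) ^ 2 / (2 * exp σ * exp τ) := by
  rw [cosh_dist', cosh_eq, neg_sub, exp_sub, exp_sub]
  simp only [pt_re, pt_im]
  field_simp
  ring

theorem lint_horo (κ : ℝ → ℝ≥0∞) (ξ σ τ : ℝ) :
    ∫⁻ x, κ (cosh (dist (pt ξ σ) (pt x τ))) =
      ENNReal.ofReal (√2 * exp ((σ + τ) / 2)) * Ab κ (cosh (τ - σ)) := by
  have hb : 0 < √2 * exp ((σ + τ) / 2) := by positivity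
  rw [lint_affine ξ _ hb, Ab]
  congr 1
  apply lintegral_congr
  intro v
  rw [cosh_dist_pt]
  congr 2
  have : exp ((σ + τ) / 2) ^ 2 = exp σ * exp τ := by
    rw [← exp_nat_mul, ← exp_add]
    congr 1
    push_cast
    ring
  rw [add_sub_cancel_left, mul_pow, mul_pow, sq_sqrt (by norm_num), this]
  field_simp

theorem lint_radial (κ : ℝ → ℝ≥0∞) (hκ : Measurable κ) :
    ∫⁻ z : ℍ, κ (cosh (dist I z)) = ENNReal.ofReal (2 * π) * ∫⁻ x in Ioi 1, κ x := by
  have hA := measurable_Ab hκ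
  rw [lint_H _ (by fun_prop)]
  have h1 : ∀ τ, ENNReal.ofReal (exp (-τ)) * ∫⁻ x, κ (cosh (dist I (pt x τ))) =
      ENNReal.ofReal (√2 * exp (-τ / 2)) * Ab κ (cosh τ) := by
    intro τ
    rw [← pt_zero, lint_horo, ← mul_assoc, ← ENNReal.ofReal_mul (exp_pos _).le, sub_zero]
    congr 2
    rw [mul_left_comm, ← exp_add]
    congr 2
    ring
  simp only [h1]
  set J := ∫⁻ τ, ENNReal.ofReal (√2 * exp (-τ / 2)) * Ab κ (cosh τ) with hJ
  have h2 : J = ∫⁻ τ, ENNReal.ofReal (√2 * exp (τ / 2)) * Ab κ (cosh τ) := by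
    rw [hJ, ← lintegral_neg_eq_self]
    simp
  have h3 := lint_subst (s := univ) (t := univ) (f := fun τ => √2 * sinh (τ / 2))
    (f' := fun τ => √2 * (cosh (τ / 2) * (1 / 2))) MeasurableSet.univ
    (fun x => (((hasDerivAt_id x).div_const 2).sinh).const_mul _)
    (fun x _ y _ h => by
      have h' : √2 * sinh (x / 2) = √2 * sinh (y / 2) := h
      have := sinh_injective (mul_left_cancel₀ (by positivity) h')
      linarith)
    (by
      apply eq_univ_of_forall
      intro y
      refine ⟨2 * arsinh (y / √2), mem_univ _, ?_⟩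
      simp only
      rw [mul_div_cancel_left₀ _ two_ne_zero, sinh_arsinh]
      field_simp) (fun s => Ab κ (1 + s ^ 2))
  rw [Measure.restrict_univ, Ab_Ab hκ] at h3
  have h4 : 4 * ∫⁻ τ, ENNReal.ofReal |√2 * (cosh (τ / 2) * (1 / 2))| *
      Ab κ (1 + (√2 * sinh (τ / 2)) ^ 2) = J + J := by
    nth_rewrite 1 [h2]
    rw [hJ, ← lintegral_add_left (by fun_prop), ← lintegral_const_mul' _ _ (by norm_num)]
    apply lintegral_congr
    intro τ
    have e1 : 1 + (√2 * sinh (τ / 2)) ^ 2 = cosh τ := by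
      rw [mul_pow, sq_sqrt (by norm_num)]
      conv_rhs => rw [show τ = 2 * (τ / 2) by ring, cosh_two_mul, cosh_sq']
      ring
    rw [e1, ← add_mul, ← mul_assoc, ← ENNReal.ofReal_add (by positivity) (by positivity),
      abs_of_pos (by have := cosh_pos (τ / 2); positivity), ← ENNReal.ofReal_ofNat 4,
      ← ENNReal.ofReal_mul (by norm_num)]
    congr 2
    rw [cosh_eq, neg_div]
    ring
  rw [← h3, ← two_mul] at h4
  have h5 : 2 * J = 2 * (ENNReal.ofReal (2 * π) * ∫⁻ x in Ioi 1, κ x) := by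
    rw [← h4, ENNReal.ofReal_mul (by norm_num), ENNReal.ofReal_ofNat]
    ring
  exact (ENNReal.mul_right_inj (by norm_num) (by norm_num)).mp h5

/-- rotation matrices -/
noncomputable def rot (θ : ℝ) : SL(2, ℝ) :=
  ⟨!![cos θ, -sin θ; sin θ, cos θ], by simp [Matrix.det_fin_two, ← sq]⟩

theorem rot_smul_I (θ : ℝ) : rot θ • I = I := by
  apply UpperHalfPlane.ext
  rw [coe_specialLinearGroup_apply]
  have h : ((sin θ : ℝ) : ℂ) * Complex.I + (cos θ : ℝ) ≠ 0 := denom_ne_zero (rot θ) I
  simp only [rot, Algebra.algebraMap_self, RingHom.id_apply, Matrix.of_apply, Matrix.cons_val',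
    Matrix.cons_val_zero, Matrix.cons_val_one, Matrix.cons_val_fin_one, coe_I]
  rw [div_eq_iff h]
  push_cast
  ring_nf
  simp [sub_eq_add_neg]

theorem continuous_rot : Continuous rot := by
  apply continuous_induced_rng.mpr
  simp only [Function.comp_def, rot]
  fun_prop

theorem exists_rot (w : ℍ) : ∃ k : SL(2, ℝ), k • I = I ∧ k • w = pt 0 (dist I w) := by
  have hc : Continuous (fun θ : ℝ => (rot θ • w).re) :=
    continuous_re.comp (continuous_rot.smul continuous_const)
  have hre : ∀ θ : ℝ, ∃ c : ℝ, 0 < c ∧ (rot θ • w).re * c =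
      (cos θ ^ 2 - sin θ ^ 2) * w.re + sin θ * cos θ * (w.re ^ 2 + w.im ^ 2 - 1) := by
    intro θ
    have h : ((sin θ : ℝ) : ℂ) * w + (cos θ : ℝ) ≠ 0 := denom_ne_zero (rot θ) w
    refine ⟨Complex.normSq (((sin θ : ℝ) : ℂ) * w + (cos θ : ℝ)), Complex.normSq_pos.mpr h, ?_⟩
    rw [← coe_re, coe_specialLinearGroup_apply]
    simp only [rot, Algebra.algebraMap_self, RingHom.id_apply, Matrix.of_apply, Matrix.cons_val',
      Matrix.cons_val_zero, Matrix.cons_val_one, Matrix.cons_val_fin_one]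
    rw [Complex.div_re, ← add_div, div_mul_cancel₀ _ (Complex.normSq_pos.mpr h).ne']
    simp [-Complex.ofReal_cos, -Complex.ofReal_sin]
    ring
  obtain ⟨θ, hθ⟩ : ∃ θ : ℝ, (rot θ • w).re = 0 := by
    obtain ⟨c₀, h₀, e₀⟩ := hre 0
    obtain ⟨c₁, h₁, e₁⟩ := hre (π / 2)
    simp only [cos_zero, sin_zero, cos_pi_div_two, sin_pi_div_two] at e₀ e₁
    rcases le_total 0 w.re with h | h
    · obtain ⟨θ, hθ⟩ := intermediate_value_univ₂ (a := π / 2) (b := (0 : ℝ)) hc
        (continuous_const (y := (0 : ℝ))) (by nlinarith) (by nlinarith)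
      exact ⟨θ, hθ⟩
    · obtain ⟨θ, hθ⟩ := intermediate_value_univ₂ (a := (0 : ℝ)) (b := π / 2) hc
        (continuous_const (y := (0 : ℝ))) (by nlinarith) (by nlinarith)
      exact ⟨θ, hθ⟩
  set τ := log (rot θ • w).im with hτ
  have h1 : rot θ • w = pt 0 τ := by rw [← hθ, hτ, pt_eq]
  have h2 : dist I w = |τ| := by
    rw [← dist_smul (rot θ), rot_smul_I, h1, dist_of_re_eq (by simp)]
    simp [Real.dist_eq]
  rcases le_total 0 τ with h | h
  · exact ⟨rot θ, rot_smul_I θ, by rw [h1, h2, abs_of_nonneg h]⟩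
  · refine ⟨rot (π / 2) * rot θ, by rw [mul_smul, rot_smul_I, rot_smul_I], ?_⟩
    rw [mul_smul, h1, h2, abs_of_nonpos h]
    apply UpperHalfPlane.ext
    rw [coe_specialLinearGroup_apply]
    simp only [rot, Algebra.algebraMap_self, RingHom.id_apply, Matrix.of_apply, Matrix.cons_val',
      Matrix.cons_val_zero, Matrix.cons_val_one, Matrix.cons_val_fin_one, cos_pi_div_two,
      sin_pi_div_two, pt]
    have := exp_pos τ
    apply Complex.ext <;> simp [Complex.div_re, Complex.div_im, Complex.normSq_apply, exp_neg]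
    field_simp

instance smulInvariant_SL2 : SMulInvariantMeasure SL(2, ℝ) ℍ volume where
  measure_preimage_smul g _ hs :=
    SMulInvariantMeasure.measure_preimage_smul (Matrix.SpecialLinearGroup.mapGL ℝ g) hs

theorem lint_smul (g : SL(2, ℝ)) (F : ℍ → ℝ≥0∞) : ∫⁻ z, F (g • z) = ∫⁻ z, F z :=
  (measurePreserving_smul g volume).lintegral_comp_emb (measurableEmbedding_const_smul g) F

/-- convolution of two wave kernels -/
noncomputable def cv (a t : ℝ) (w : ℍ) : ℝ≥0∞ :=
  ∫⁻ z : ℍ, wk a (cosh (dist I z)) * wk t (cosh (dist z w))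

theorem measurable_cv (a t : ℝ) : Measurable (cv a t) :=
  Measurable.lintegral_prod_right
    (f := fun w z : ℍ => wk a (cosh (dist I z)) * wk t (cosh (dist z w))) (by fun_prop)

theorem cv_radial (a t : ℝ) (w : ℍ) : cv a t w = cv a t (pt 0 (arcosh (cosh (dist I w)))) := by
  obtain ⟨k, h1, h2⟩ := exists_rot w
  rw [arcosh_cosh dist_nonneg, ← h2, cv, cv,
    ← lint_smul k (fun z => wk a (cosh (dist I z)) * wk t (cosh (dist z (k • w))))]
  apply lintegral_congr
  intro z
  rw [dist_smul]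
  conv_rhs => rw [← h1, dist_smul]

/-- the mixture of wave kernels -/
noncomputable def mx (a t x : ℝ) : ℝ≥0∞ :=
  ∫⁻ u in Ioo (t - a) (t + a), ENNReal.ofReal (√2 * π) * wk u x

theorem measurable_mx (a t : ℝ) : Measurable (mx a t) :=
  Measurable.lintegral_prod_right
    (f := fun x u : ℝ => ENNReal.ofReal (√2 * π) * wk u x) (by fun_prop)

theorem Ab_mx {a t τ : ℝ} (hat : a ≤ t) (hτ : 0 ≤ τ) :
    Ab (mx a t) (cosh τ) =
      ENNReal.ofReal (√2 * π) * ENNReal.ofReal π * volume (Ioo (max (t - a) τ) (t + a)) := by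
  unfold Ab mx
  rw [lintegral_lintegral_swap (by fun_prop)]
  have h1 : ∀ u ∈ Ioo (t - a) (t + a), ∫⁻ v, ENNReal.ofReal (√2 * π) * wk u (cosh τ + v ^ 2) =
      (Ioi τ).indicator (fun _ => ENNReal.ofReal (√2 * π) * ENNReal.ofReal π) u := by
    intro u hu
    rw [lintegral_const_mul' _ _ ENNReal.ofReal_ne_top]
    have := Ab_wk u (cosh τ)
    rw [Ab] at this
    rw [this]
    simp only [cosh_lt_cosh, abs_of_nonneg hτ, abs_of_nonneg (by linarith [hu.1] : 0 ≤ u)]
    by_cases h : τ < u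
    · rw [if_pos h, indicator_of_mem (mem_Ioi.mpr h)]
    · rw [if_neg h, indicator_of_notMem (by simpa using h), mul_zero]
  rw [setLIntegral_congr_fun measurableSet_Ioo h1, lintegral_indicator measurableSet_Ioi,
    Measure.restrict_restrict measurableSet_Ioi, setLIntegral_const]
  congr 2
  ext u
  simp only [mem_inter_iff, mem_Ioi, mem_Ioo, max_lt_iff]
  tauto

theorem measurable_arcosh : Measurable arcosh := by
  unfold arcosh
  fun_prop

theorem Ab_cv {a t τ : ℝ} (ha : 0 ≤ a) (hat : a ≤ t) (hτ : 0 ≤ τ) :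
    Ab (fun x => cv a t (pt 0 (arcosh x))) (cosh τ) =
      ENNReal.ofReal (√2 * π) * ENNReal.ofReal π * volume (Ioo (max (-a) (τ - t)) a) := by
  have h1 := lint_horo (fun x => cv a t (pt 0 (arcosh x))) 0 0 τ
  simp only [pt_zero, ← cv_radial, sub_zero, zero_add] at h1
  have hpos : ENNReal.ofReal (√2 * exp (τ / 2)) ≠ 0 := by
    simp only [ne_eq, ENNReal.ofReal_eq_zero, not_le]
    positivity
  rw [← ENNReal.mul_right_inj hpos ENNReal.ofReal_ne_top, ← h1]
  unfold cv
  rw [lintegral_lintegral_swap (by fun_prop), lint_H _ (Measurable.lintegral_prod_right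
    (f := fun (z : ℍ) (x : ℝ) => wk a (cosh (dist I z)) * wk t (cosh (dist z (pt x τ))))
    (by fun_prop))]
  have h2 : ∀ σ, ENNReal.ofReal (exp (-σ)) * ∫⁻ ξ, ∫⁻ x, wk a (cosh (dist I (pt ξ σ))) *
      wk t (cosh (dist (pt ξ σ) (pt x τ))) = (Ioo (max (-a) (τ - t)) a).indicator
        (fun _ => ENNReal.ofReal (√2 * exp (τ / 2)) *
          (ENNReal.ofReal (√2 * π) * ENNReal.ofReal π)) σ := by
    intro σ
    have h3 : ∀ ξ, ∫⁻ x, wk a (cosh (dist I (pt ξ σ))) * wk t (cosh (dist (pt ξ σ) (pt x τ))) =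
        wk a (cosh (dist I (pt ξ σ))) *
          (ENNReal.ofReal (√2 * exp ((σ + τ) / 2)) * Ab (wk t) (cosh (τ - σ))) := by
      intro ξ
      rw [lintegral_const_mul' _ _ (wk_ne_top _ _), lint_horo]
    simp only [h3]
    rw [lintegral_mul_const _ (by fun_prop), ← pt_zero, lint_horo, Ab_wk, Ab_wk]
    simp only [cosh_lt_cosh, abs_of_nonneg ha, abs_of_nonneg (ha.trans hat), sub_zero, zero_add]
    by_cases h : σ ∈ Ioo (max (-a) (τ - t)) a
    · have h4 := h.2
      obtain ⟨h5, h6⟩ := max_lt_iff.mp h.1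
      rw [indicator_of_mem h, if_pos (abs_lt.mpr ⟨h5, h4⟩),
        if_pos (abs_lt.mpr ⟨by linarith, by linarith⟩)]
      simp only [← ENNReal.ofReal_mul (by positivity : 0 ≤ √2 * exp (σ / 2)),
        ← ENNReal.ofReal_mul (by positivity : 0 ≤ √2 * exp ((σ + τ) / 2)),
        ← ENNReal.ofReal_mul (by positivity : 0 ≤ √2 * exp (τ / 2)),
        ← ENNReal.ofReal_mul (by positivity : 0 ≤ √2 * π),
        ← ENNReal.ofReal_mul (by positivity : 0 ≤ √2 * exp (σ / 2) * π),
        ← ENNReal.ofReal_mul (exp_pos (-σ)).le]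
      congr 1
      have e : exp (-σ) * (exp (σ / 2) * exp ((σ + τ) / 2)) = exp (τ / 2) := by
        rw [← exp_add, ← exp_add]
        congr 1
        ring
      rw [← e]
      ring
    · rw [indicator_of_notMem h]
      by_cases h4 : |σ| < a
      · rw [if_neg (c := |τ - σ| < t)]
        · simp
        · intro h5
          apply h
          obtain ⟨h6, h7⟩ := abs_lt.mp h4
          obtain ⟨h8, h9⟩ := abs_lt.mp h5
          exact ⟨max_lt h6 (by linarith), h7⟩
      · rw [if_neg h4]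
        simp
  simp only [h2]
  rw [lintegral_indicator measurableSet_Ioo, setLIntegral_const]
  ring

theorem lint_mx_ne_top (a t : ℝ) : ∫⁻ x in Ioi 1, mx a t x ≠ ∞ := by
  unfold mx
  rw [lintegral_lintegral_swap (by fun_prop)]
  have h1 : ∀ u, ∫⁻ x in Ioi 1, ENNReal.ofReal (√2 * π) * wk u x =
      ENNReal.ofReal (√2 * π * (2 * √(cosh u - 1))) := by
    intro u
    rw [lintegral_const_mul' _ _ ENNReal.ofReal_ne_top, lint_wk,
      ← ENNReal.ofReal_mul (by positivity)]
  simp only [h1]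
  have hc : Continuous (fun u => √2 * π * (2 * √(cosh u - 1))) := by fun_prop
  exact ((hc.integrableOn_Icc.mono_set Ioo_subset_Icc_self).lintegral_lt_top).ne

theorem cv_ae_eq {a t : ℝ} (ha : 0 ≤ a) (hat : a ≤ t) :
    ∀ᵐ w : ℍ, cv a t w = mx a t (cosh (dist I w)) := by
  have hm : Measurable (fun x => cv a t (pt 0 (arcosh x))) :=
    (measurable_cv a t).comp (measurable_pt measurable_const measurable_arcosh)
  have h := Ab_inj (measurable_mx a t) hm (fun c hc => by
    rw [← cosh_arcosh hc, Ab_mx hat (arcosh_nonneg hc), Ab_cv ha hat (arcosh_nonneg hc),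
      volume_Ioo, volume_Ioo]
    congr 2
    rcases le_total (t - a) (arcosh c) with h | h
    · rw [max_eq_right h, max_eq_right (by linarith)]
      ring
    · rw [max_eq_left h, max_eq_left (by linarith)]
      ring) (lint_mx_ne_top a t)
  set N := {x | mx a t x ≠ cv a t (pt 0 (arcosh x))} with hN
  have hNm : MeasurableSet N := (measurableSet_eq_fun (measurable_mx a t) hm).compl
  have h1 := lint_radial (N.indicator 1) (measurable_one.indicator hNm)
  rw [lintegral_indicator_one hNm, show (volume.restrict (Ioi 1)) N = 0 from h, mul_zero,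
    lintegral_eq_zero_iff (f := fun z : ℍ => N.indicator (1 : ℝ → ℝ≥0∞) (cosh (dist I z)))
      ((measurable_one.indicator hNm).comp (by fun_prop))] at h1
  filter_upwards [h1] with w hw
  by_contra hcon
  have : cosh (dist I w) ∈ N := by
    rw [cv_radial] at hcon
    exact fun h => hcon h.symm
  simp [indicator_of_mem this] at hw

end Pool.Agent.MP_f2742c_an
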